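import Pool.Agent.Q136.NCC.Stm

/-!
# Project NCC (helper136), job MO2: fractional linear maps act on the normal rational curve
-/

set_option autoImplicit false

open Finset Polynomial

namespace Pool.Agent.Q166.NCC

open Pool.Agent.Q136.RNC Pool.Agent.Q136.NCC

variable {F : Type} [Field F]

/-- the row polynomials -/
noncomputable def rp (k : ℕ) (a b c d : F) (i : ℕ) : F[X] :=
  (C a * X + C b) ^ i * (C c * X + C d) ^ (k - 1 - i)

theorem lin_deg (a b : F) : (C a * X + C b).natDegree ≤ 1 := natDegree_linear_le

theorem lin_coeff (a b : F) : (C a * X + C b).coeff 1 = a := by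
  simp [coeff_C]

theorem rp_deg {k : ℕ} (a b c d : F) {i : ℕ} (hi : i < k) : (rp k a b c d i).natDegree < k := by
  have h1 : ((C a * X + C b) ^ i).natDegree ≤ i * 1 := natDegree_pow_le_of_le i (lin_deg a b)
  have h2 : ((C c * X + C d) ^ (k - 1 - i)).natDegree ≤ (k - 1 - i) * 1 :=
    natDegree_pow_le_of_le (k - 1 - i) (lin_deg c d)
  have h3 : (rp k a b c d i).natDegree ≤ _ := natDegree_mul_le
  unfold rp at *
  omega

theorem rp_coeff {k : ℕ} (a b c d : F) {i : ℕ} (hi : i < k) :
    (rp k a b c d i).coeff (k - 1) = a ^ i * c ^ (k - 1 - i) := by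
  have e : k - 1 = i * 1 + (k - 1 - i) * 1 := by omega
  unfold rp
  have h := coeff_mul_add_eq_of_natDegree_le (natDegree_pow_le_of_le i (lin_deg a b))
    (natDegree_pow_le_of_le (k - 1 - i) (lin_deg c d))
  rw [← e] at h
  rw [h, coeff_pow_of_natDegree_le (lin_deg a b), coeff_pow_of_natDegree_le (lin_deg c d),
    lin_coeff, lin_coeff]

theorem rp_eval (k : ℕ) (a b c d : F) (i : ℕ) (t : F) :
    (rp k a b c d i).eval t = (a * t + b) ^ i * (c * t + d) ^ (k - 1 - i) := by
  simp [rp]

/-- the linear map of the fractional linear map -/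
noncomputable def mm (k : ℕ) (a b c d : F) : (Fin k → F) →ₗ[F] (Fin k → F) where
  toFun x := fun i => ∑ j : Fin k, (rp k a b c d i).coeff j * x j
  map_add' x y := by
    funext i
    simp [mul_add, Finset.sum_add_distrib]
  map_smul' r x := by
    funext i
    simp only [Pi.smul_apply, smul_eq_mul, RingHom.id_apply, Finset.mul_sum]
    refine Finset.sum_congr rfl fun j _ => by ring

theorem mm_some (k : ℕ) (a b c d t : F) (i : Fin k) :
    mm k a b c d (nrc k (some t)) i = (a * t + b) ^ (i : ℕ) * (c * t + d) ^ (k - 1 - i) := by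
  rw [← rp_eval, eval_eq_sum_range' (rp_deg a b c d i.2), ← Fin.sum_univ_eq_sum_range
    (fun j => (rp k a b c d i).coeff j * t ^ j)]
  rfl

theorem mm_none (k : ℕ) (a b c d : F) (i : Fin k) :
    mm k a b c d (nrc k none) i = a ^ (i : ℕ) * c ^ (k - 1 - i) := by
  rw [← rp_coeff a b c d i.2]
  change ∑ j : Fin k, (rp k a b c d i).coeff j * (if (j : ℕ) + 1 = k then 1 else 0) = _
  have hk : 0 < k := i.pos
  rw [Finset.sum_eq_single (⟨k - 1, by omega⟩ : Fin k)]
  · rw [if_pos (by simp only; omega), mul_one]
  · intro j _ hj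
    rw [if_neg, mul_zero]
    intro h
    apply hj
    ext
    simp only
    omega
  · intro h
    exact absurd (Finset.mem_univ _) h

theorem key1 {k : ℕ} (u v : F) (hv : v ≠ 0) (i : Fin k) :
    u ^ (i : ℕ) * v ^ (k - 1 - i) = v ^ (k - 1) * (u / v) ^ (i : ℕ) := by
  have hi : (i : ℕ) ≤ k - 1 := by omega
  have e : v ^ (k - 1) = v ^ (k - 1 - i) * v ^ (i : ℕ) := by
    rw [← pow_add]
    congr 1
    omega
  rw [e, div_pow]
  field_simp

theorem key2 {k : ℕ} (u : F) (i : Fin k) :
    u ^ (i : ℕ) * (0 : F) ^ (k - 1 - i) = u ^ (k - 1) * (if (i : ℕ) + 1 = k then 1 else 0) := by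
  by_cases h : (i : ℕ) + 1 = k
  · have e : k - 1 = i := by omega
    rw [if_pos h, e]
    simp
  · rw [if_neg h, zero_pow (by omega)]
    simp

theorem mm_pr [DecidableEq F] (k : ℕ) (a b c d : F) (h : a * d - b * c ≠ 0) (t : Option F) :
    Pr (mm k a b c d (nrc k t)) (nrc k (mo a b c d t)) := by
  cases t with
  | none =>
    by_cases hc : c = 0
    · have ha : a ≠ 0 := by
        rintro rfl
        apply h
        rw [hc]
        ring
      have hm : mo a b c d none = none := by simp [mo, hc]
      rw [hm]
      refine ⟨a ^ (k - 1), pow_ne_zero _ ha, ?_⟩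
      funext i
      rw [mm_none, hc, key2]
      rfl
    · have hm : mo a b c d none = some (a / c) := by simp [mo, hc]
      rw [hm]
      refine ⟨c ^ (k - 1), pow_ne_zero _ hc, ?_⟩
      funext i
      rw [mm_none, key1 a c hc]
      rfl
  | some t =>
    by_cases hc : c * t + d = 0
    · have ha : a * t + b ≠ 0 := by
        intro ha
        apply h
        by_cases hc0 : c = 0
        · have hd : d = 0 := by rw [hc0] at hc; simpa using hc
          rw [hc0, hd]
          ring
        · have : c * (a * d - b * c) = 0 := by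
            have e1 : d = - (c * t) := by linear_combination hc
            have e2 : b = - (a * t) := by linear_combination ha
            rw [e1, e2]
            ring
          rcases mul_eq_zero.1 this with h' | h'
          · exact absurd h' hc0
          · exact h'
      have hm : mo a b c d (some t) = none := by simp [mo, hc]
      rw [hm]
      refine ⟨(a * t + b) ^ (k - 1), pow_ne_zero _ ha, ?_⟩
      funext i
      rw [mm_some, hc, key2]
      rfl
    · have hm : mo a b c d (some t) = some ((a * t + b) / (c * t + d)) := by simp [mo, hc]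
      rw [hm]
      refine ⟨(c * t + d) ^ (k - 1), pow_ne_zero _ hc, ?_⟩
      funext i
      rw [mm_some, key1 _ _ hc]
      rfl

theorem t_MO2 (hNAR : S_NAR) (hMO1 : S_MO1) : S_MO2 := by
  intro F _ _ _ k hk hkq a b c d h
  have hinj := (hMO1 F).1 a b c d h
  -- k different points
  have hcard : Fintype.card (Fin k) ≤ Fintype.card (Option F) := by
    rw [Fintype.card_fin, Fintype.card_option]
    exact hkq
  obtain ⟨t⟩ := Function.Embedding.nonempty_of_card_le hcard
  have hli := hNAR F (Fin k) k (fun j => mo a b c d (t j)) (hinj.comp t.injective) univ (by simp)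
  have hli1 : LinearIndependent F (fun j : Fin k => nrc k (mo a b c d (t j))) := by
    have := hli.comp (fun j : Fin k => (⟨j, mem_univ j⟩ : (univ : Finset (Fin k)))) (by
      intro x y hxy
      simpa using hxy)
    exact this
  choose r hr0 hr using fun j => mm_pr k a b c d h (t j)
  have hli2 : LinearIndependent F (fun j : Fin k => mm k a b c d (nrc k (t j))) := by
    have := hli1.units_smul (fun j => Units.mk0 (r j) (hr0 j))
    convert this using 1
    funext j
    rw [hr j]
    rfl
  have hspan := hli2.span_eq_top_of_card_eq_finrank' (by simp)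
  have hsur : Function.Surjective (mm k a b c d) := by
    rw [← LinearMap.range_eq_top, eq_top_iff, ← hspan, Submodule.span_le]
    rintro _ ⟨j, rfl⟩
    exact ⟨_, rfl⟩
  have hbij : Function.Injective (mm k a b c d) := LinearMap.injective_iff_surjective.2 hsur
  refine ⟨LinearEquiv.ofInjectiveEndo (mm k a b c d) hbij, fun s => ?_⟩
  have := mm_pr k a b c d h s
  simpa using this

end Pool.Agent.Q166.NCC
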